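import Pool.Agent.Lib.MP_2d002d_gt.Interfaces
import Pool.Agent.Lib.MP_2d002d_gt.Basic

/-!
# MP_2d002d_gt, module M4: the Brascamp-Lieb inequality with a diagonal lower bound of the Hessian
-/

set_option autoImplicit false

open MeasureTheory Set Filter Topology
open scoped ContDiff

namespace Pool.Agent.Lib.MP_2d002d_gt.H50

variable {n : ℕ}

lemma contDiff_fld {b : Fin n → ℝ → ℝ} {u : (Fin n → ℝ) → ℝ} (hb : ∀ i, ContDiff ℝ ∞ (b i))
    (hpos : ∀ i x, 0 < b i x) (hu : ContDiff ℝ ∞ u) (i : Fin n) :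
    ContDiff ℝ ∞ (fld b u i) := by
  unfold fld
  exact (contDiff_pd hu i).div (contDiff_coord (hb i) i) (fun x => (hpos i _).ne')

lemma supp_fld {b : Fin n → ℝ → ℝ} {u : (Fin n → ℝ) → ℝ} (hu : HasCompactSupport u) (i : Fin n) :
    HasCompactSupport (fld b u i) := by
  unfold fld
  have : (fun x : Fin n → ℝ => pd i u x / b i (x i)) =
      fun x => pd i u x * (b i (x i))⁻¹ := by
    funext x; rw [div_eq_mul_inv]
  rw [this]
  exact (hasCompactSupport_pd hu i).mul_right

lemma contDiff_dv {Ψ : (Fin n → ℝ) → ℝ} {X : Fin n → (Fin n → ℝ) → ℝ} (hΨ : ContDiff ℝ ∞ Ψ)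
    (hX : ∀ i, ContDiff ℝ ∞ (X i)) : ContDiff ℝ ∞ (dv Ψ X) := by
  unfold dv
  apply ContDiff.sum
  intro i _
  exact (contDiff_pd (hX i) i).sub ((contDiff_pd hΨ i).mul (hX i))

lemma hasCompactSupport_sum' {ι : Type*} (s : Finset ι) (f : ι → (Fin n → ℝ) → ℝ)
    (h : ∀ i ∈ s, HasCompactSupport (f i)) : HasCompactSupport (fun x => ∑ i ∈ s, f i x) := by
  classical
  induction s using Finset.induction_on with
  | empty =>
    have h0 : (fun x : Fin n → ℝ => ∑ i ∈ (∅ : Finset ι), f i x) = 0 := by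
      funext x
      simp
    rw [h0]
    exact HasCompactSupport.zero
  | insert a s ha ih =>
    have h1 : (fun x => ∑ i ∈ insert a s, f i x) = (f a) + fun x => ∑ i ∈ s, f i x := by
      funext x
      rw [Finset.sum_insert ha]
      rfl
    rw [h1]
    exact (h a (Finset.mem_insert_self a s)).add
      (ih (fun i hi => h i (Finset.mem_insert_of_mem hi)))

lemma supp_dv {Ψ : (Fin n → ℝ) → ℝ} {X : Fin n → (Fin n → ℝ) → ℝ}
    (hX : ∀ i, HasCompactSupport (X i)) : HasCompactSupport (dv Ψ X) := by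
  unfold dv
  apply hasCompactSupport_sum'
  intro i _
  have h1 := hasCompactSupport_pd (hX i) i
  have h2 : HasCompactSupport (fun x => - (pd i Ψ x) * X i x) :=
    (hX i).mul_left (f := fun x => - (pd i Ψ x))
  have h3 := h1.add h2
  have : (fun x => pd i (X i) x - pd i Ψ x * X i x) =
      pd i (X i) + fun x => - (pd i Ψ x) * X i x := by
    funext x
    simp only [Pi.add_apply]
    ring
  rw [this]
  exact h3

/-- mixed derivative of the field for `i ≠ j` -/
lemma pd_fld_ne {b : Fin n → ℝ → ℝ} {u : (Fin n → ℝ) → ℝ} (hb : ∀ i, ContDiff ℝ ∞ (b i))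
    (hpos : ∀ i x, 0 < b i x) (hu : ContDiff ℝ ∞ u) {i j : Fin n} (hij : i ≠ j) (x : Fin n → ℝ) :
    pd i (fld b u j) x = pd i (pd j u) x / b j (x j) := by
  have hinv : ContDiff ℝ ∞ (fun t => (b j t)⁻¹) := (hb j).inv (fun t => (hpos j t).ne')
  have h1 : fld b u j = fun x => pd j u x * (fun y : Fin n → ℝ => (fun t => (b j t)⁻¹) (y j)) x := by
    funext x
    unfold fld
    rw [div_eq_mul_inv]
  rw [h1, pd_mul (diffAt (contDiff_pd hu j) x) (diffAt (contDiff_coord hinv j) x) i,
    pd_coord (hinv.differentiable (by simp)) i j x, if_neg hij, mul_zero, zero_add,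
    div_eq_mul_inv, mul_comm]

lemma trace_nonneg {b : Fin n → ℝ → ℝ} {u : (Fin n → ℝ) → ℝ} (hb : ∀ i, ContDiff ℝ ∞ (b i))
    (hpos : ∀ i x, 0 < b i x) (hu : ContDiff ℝ ∞ u) (x : Fin n → ℝ) :
    0 ≤ ∑ i, ∑ j, pd i (fld b u j) x * pd j (fld b u i) x := by
  apply Finset.sum_nonneg
  intro i _
  apply Finset.sum_nonneg
  intro j _
  by_cases hij : i = j
  · subst hij
    exact mul_self_nonneg _
  · rw [pd_fld_ne hb hpos hu hij, pd_fld_ne hb hpos hu (Ne.symm hij), pd_symm hu j i x,
      div_mul_div_comm]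
    exact div_nonneg (mul_self_nonneg _) (mul_pos (hpos j _) (hpos i _)).le

/-- M4 -/
theorem bl (hD : DensM) (hI : IBP) (hB : Boch) : BL := by
  intro n Ψ g b hΨ hb hδ hint hconv hg hgs hmean
  have hpos : ∀ i x, 0 < b i x := by
    obtain ⟨δ, hδ0, hδ1⟩ := hδ
    intro i x
    exact lt_of_lt_of_le hδ0 (hδ1 i x)
  have hexp : Continuous (fun x => Real.exp (-Ψ x)) := Real.continuous_exp.comp hΨ.continuous.neg
  have hcs : ∀ {f : (Fin n → ℝ) → ℝ}, Continuous f → HasCompactSupport f →
      Integrable (fun x => f x * Real.exp (-Ψ x)) := by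
    intro f hf hs
    exact (hf.mul hexp).integrable_of_hasCompactSupport hs.mul_right
  have hg2s : HasCompactSupport (fun x => g x ^ 2) := by
    have : (fun x => g x ^ 2) = fun x => g x * g x := by funext x; ring
    rw [this]
    exact hgs.mul_right
  apply le_of_forall_pos_le_add
  intro ε hε
  obtain ⟨u, hu, hus, hule⟩ := hD n Ψ g b hΨ hb hδ hint hg.continuous
    (hcs (hg.continuous.pow 2) hg2s) hmean ε hε
  set Y : Fin n → (Fin n → ℝ) → ℝ := fld b u with hY
  have hYc : ∀ i, ContDiff ℝ ∞ (Y i) := fun i => contDiff_fld hb hpos hu i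
  have hYs : ∀ i, HasCompactSupport (Y i) := fun i => supp_fld hus i
  set L : (Fin n → ℝ) → ℝ := dv Ψ Y with hL
  have hLc : ContDiff ℝ ∞ L := contDiff_dv hΨ hYc
  have hLs : HasCompactSupport L := supp_dv hYs
  have hibp := hI n Ψ g Y (contDiff_one hΨ) (contDiff_one hg) (fun i => contDiff_one (hYc i)) hYs
  have hboch := hB n Ψ Y hΨ hYc hYs
  -- the identity `g² = 2 g L - L² + (L - g)²`
  have i1 : Integrable (fun x => g x * L x * Real.exp (-Ψ x)) :=
    hcs (hg.continuous.mul hLc.continuous) hgs.mul_right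
  have hL2s : HasCompactSupport (fun x => L x ^ 2) := by
    have : (fun x => L x ^ 2) = fun x => L x * L x := by funext x; ring
    rw [this]
    exact hLs.mul_right
  have i2 : Integrable (fun x => L x ^ 2 * Real.exp (-Ψ x)) := hcs (hLc.continuous.pow 2) hL2s
  have hLg : HasCompactSupport (fun x => (L x - g x) ^ 2) := by
    have h1 : HasCompactSupport (L + fun x => -g x) := hLs.add hgs.neg
    have : (fun x => (L x - g x) ^ 2) = fun x => (L + fun x => -g x) x * (L + fun x => -g x) x := by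
      funext x
      simp only [Pi.add_apply]
      ring
    rw [this]
    exact h1.mul_right
  have i3 : Integrable (fun x => (L x - g x) ^ 2 * Real.exp (-Ψ x)) :=
    hcs ((hLc.continuous.sub hg.continuous).pow 2) hLg
  have hid : ∫ x, g x ^ 2 * Real.exp (-Ψ x) =
      2 * (∫ x, g x * L x * Real.exp (-Ψ x)) - (∫ x, L x ^ 2 * Real.exp (-Ψ x)) +
        ∫ x, (L x - g x) ^ 2 * Real.exp (-Ψ x) := by
    have i12 : Integrable (fun x => 2 * (g x * L x * Real.exp (-Ψ x)) -
        L x ^ 2 * Real.exp (-Ψ x)) := (i1.const_mul 2).sub i2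
    rw [← integral_const_mul, ← integral_sub (i1.const_mul 2) i2, ← integral_add i12 i3]
    apply integral_congr_ae
    filter_upwards with x
    ring
  -- continuity and supports of the remaining integrands
  have hYg : Continuous (fun x => ∑ i, Y i x * pd i g x) :=
    continuous_finsetSum _ (fun i _ => (hYc i).continuous.mul (contDiff_pd hg i).continuous)
  have hYgs : HasCompactSupport (fun x => ∑ i, Y i x * pd i g x) :=
    hasCompactSupport_sum' _ _ (fun i _ => (hYs i).mul_right)
  have i4 := hcs hYg hYgs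
  have hT : Continuous (fun x => (∑ i, ∑ j, pd i (Y j) x * pd j (Y i) x) +
      ∑ i, ∑ j, pd i (pd j Ψ) x * Y i x * Y j x) := by
    apply Continuous.add
    · refine continuous_finsetSum _ (fun i _ => continuous_finsetSum _ (fun j _ => ?_))
      exact (contDiff_pd (hYc j) i).continuous.mul (contDiff_pd (hYc i) j).continuous
    · refine continuous_finsetSum _ (fun i _ => continuous_finsetSum _ (fun j _ => ?_))
      exact ((contDiff_pd (contDiff_pd hΨ j) i).continuous.mul (hYc i).continuous).mul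
        (hYc j).continuous
  have hTs : HasCompactSupport (fun x => (∑ i, ∑ j, pd i (Y j) x * pd j (Y i) x) +
      ∑ i, ∑ j, pd i (pd j Ψ) x * Y i x * Y j x) := by
    refine HasCompactSupport.add (hasCompactSupport_sum' _ _ (fun i _ =>
      hasCompactSupport_sum' _ _ (fun j _ => ?_)))
      (hasCompactSupport_sum' _ _ (fun i _ => hasCompactSupport_sum' _ _ (fun j _ => ?_)))
    · exact (hasCompactSupport_pd (hYs j) i).mul_right
    · exact (hYs j).mul_left
  have i5 := hcs hT hTs
  have hG : Continuous (fun x => ∑ i, pd i g x ^ 2 / b i (x i)) := by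
    refine continuous_finsetSum _ (fun i _ => ?_)
    exact ((contDiff_pd hg i).continuous.pow 2).div (contDiff_coord (hb i) i).continuous
      (fun x => (hpos i _).ne')
  have hGs : HasCompactSupport (fun x => ∑ i, pd i g x ^ 2 / b i (x i)) := by
    refine hasCompactSupport_sum' _ _ (fun i _ => ?_)
    have : (fun x => pd i g x ^ 2 / b i (x i)) = fun x => pd i g x * (pd i g x / b i (x i)) := by
      funext x; ring
    rw [this]
    exact (hasCompactSupport_pd hgs i).mul_right
  have i6 := hcs hG hGs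
  rw [hid, hibp, hboch]
  have hpt : ∀ x, -2 * (∑ i, Y i x * pd i g x) -
      ((∑ i, ∑ j, pd i (Y j) x * pd j (Y i) x) + ∑ i, ∑ j, pd i (pd j Ψ) x * Y i x * Y j x) ≤
      ∑ i, pd i g x ^ 2 / b i (x i) := by
    intro x
    have h1 := trace_nonneg hb hpos hu x
    have h2 := hconv x (fun i => Y i x)
    have h3 : -2 * (∑ i, Y i x * pd i g x) - ∑ i, b i (x i) * Y i x ^ 2 ≤
        ∑ i, pd i g x ^ 2 / b i (x i) := by
      rw [Finset.mul_sum, ← Finset.sum_sub_distrib]
      apply Finset.sum_le_sum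
      intro i _
      have hp := hpos i (x i)
      rw [le_div_iff₀ hp]
      nlinarith [sq_nonneg (b i (x i) * Y i x + pd i g x)]
    rw [← hY] at h1
    linarith
  have hle : (∫ x, (-2 * (∑ i, Y i x * pd i g x) -
      ((∑ i, ∑ j, pd i (Y j) x * pd j (Y i) x) + ∑ i, ∑ j, pd i (pd j Ψ) x * Y i x * Y j x)) *
        Real.exp (-Ψ x)) ≤ ∫ x, (∑ i, pd i g x ^ 2 / b i (x i)) * Real.exp (-Ψ x) := by
    apply integral_mono _ i6
    · intro x
      exact mul_le_mul_of_nonneg_right (hpt x) (Real.exp_pos _).le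
    · have := (i4.const_mul (-2)).sub i5
      refine this.congr ?_
      filter_upwards with x
      simp only [Pi.sub_apply]
      ring
  have heq : (∫ x, (-2 * (∑ i, Y i x * pd i g x) -
      ((∑ i, ∑ j, pd i (Y j) x * pd j (Y i) x) + ∑ i, ∑ j, pd i (pd j Ψ) x * Y i x * Y j x)) *
        Real.exp (-Ψ x)) = 2 * (-∫ x, (∑ i, Y i x * pd i g x) * Real.exp (-Ψ x)) -
      ∫ x, ((∑ i, ∑ j, pd i (Y j) x * pd j (Y i) x) +
        ∑ i, ∑ j, pd i (pd j Ψ) x * Y i x * Y j x) * Real.exp (-Ψ x) := by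
    rw [mul_neg, ← neg_mul, ← integral_const_mul, ← integral_sub (i4.const_mul (-2)) i5]
    apply integral_congr_ae
    filter_upwards with x
    ring
  linarith

end Pool.Agent.Lib.MP_2d002d_gt.H50
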