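import Pool.Agent.Lib.MP_2d002d_gt.Interfaces
import Pool.Agent.Lib.MP_2c1b2b_gt.H32.PL

/-!
# MP_2d002d_gt, module M10a: mixtures
-/

set_option autoImplicit false

open MeasureTheory Set Filter Topology
open scoped ContDiff ENNReal Pointwise

namespace Pool.Agent.Lib.MP_2d002d_gt.H50

variable {n d : ℕ}

lemma adm_zero_le {A : ℝ → ℝ} (hA : Adm A) {s : ℝ} (hs : 0 ≤ s) : A 0 ≤ A s := by
  obtain ⟨δ, hδ, hlo⟩ := hA.lo
  have hm : MonotoneOn A (Ici 0) := by
    apply monotoneOn_of_deriv_nonneg (convex_Ici 0) hA.smooth.continuous.continuousOn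
      (hA.smooth.differentiable (by simp)).differentiableOn
    intro x hx
    rw [interior_Ici] at hx
    exact hδ.le.trans (hlo x (le_of_lt hx))
  exact hm (mem_Ici.2 le_rfl) (mem_Ici.2 hs) hs

lemma continuous_pot (o : Fin d → Fin n) {A : Fin n → ℝ → ℝ} (hA : ∀ i, Adm (A i)) (a : ℝ) :
    Continuous (fun z : (Fin d → ℝ) × (Fin n → ℝ) => pot o A a z.1 z.2) := by
  unfold pot
  have hx : ∀ i : Fin n, Continuous (fun z : (Fin d → ℝ) × (Fin n → ℝ) => (z.2 i / a) ^ 2) := by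
    intro i
    have h1 : Continuous (fun z : (Fin d → ℝ) × (Fin n → ℝ) => z.2 i) :=
      (continuous_apply i).comp continuous_snd
    exact (h1.div_const a).pow 2
  apply Continuous.add
  · refine continuous_finsetSum _ (fun i _ => ?_)
    exact (hA i).smooth.continuous.comp (hx i)
  · refine Continuous.div_const (continuous_finsetSum _ (fun k _ => ?_)) 2
    exact (Real.continuous_exp.comp ((continuous_apply k).comp continuous_fst)).mul (hx (o k))

lemma le_pot (o : Fin d → Fin n) {A : Fin n → ℝ → ℝ} (hA : ∀ i, Adm (A i)) (a : ℝ)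
    (r : Fin d → ℝ) (x : Fin n → ℝ) : ∑ i, A i 0 ≤ pot o A a r x := by
  unfold pot
  have h1 : ∑ i, A i 0 ≤ ∑ i, A i ((x i / a) ^ 2) :=
    Finset.sum_le_sum (fun i _ => adm_zero_le (hA i) (sq_nonneg _))
  have h2 : 0 ≤ (∑ k, Real.exp (r k) * (x (o k) / a) ^ 2) / 2 :=
    div_nonneg (Finset.sum_nonneg (fun k _ => mul_nonneg (Real.exp_pos _).le (sq_nonneg _)))
      (by norm_num)
  linarith

lemma exp_pot_le (o : Fin d → Fin n) {A : Fin n → ℝ → ℝ} (hA : ∀ i, Adm (A i)) (a : ℝ)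
    (r : Fin d → ℝ) (x : Fin n → ℝ) :
    Real.exp (-pot o A a r x) ≤ Real.exp (-∑ i, A i 0) := by
  apply Real.exp_le_exp.2
  have := le_pot o hA a r x
  linarith

/-- the inner integral as a Lebesgue integral -/
noncomputable def HH (o : Fin d → Fin n) (A : Fin n → ℝ → ℝ) (K : Set (Fin n → ℝ)) (a : ℝ)
    (r : Fin d → ℝ) : ℝ≥0∞ := ∫⁻ x in K, ENNReal.ofReal (Real.exp (-pot o A a r x))

lemma integrableOn_pot (o : Fin d → Fin n) {A : Fin n → ℝ → ℝ} (hA : ∀ i, Adm (A i))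
    {K : Set (Fin n → ℝ)} (hK : Bornology.IsBounded K) (a : ℝ) (r : Fin d → ℝ) :
    IntegrableOn (fun x => Real.exp (-pot o A a r x)) K := by
  have hfin : volume K < ⊤ := hK.measure_lt_top
  apply Measure.integrableOn_of_bounded (M := Real.exp (-∑ i, A i 0)) hfin.ne
  · have h := (continuous_pot o hA a).comp (Continuous.prodMk_right (X := Fin d → ℝ) r)
    exact (Real.continuous_exp.comp h.neg).aestronglyMeasurable
  · filter_upwards with x
    rw [Real.norm_eq_abs, abs_of_pos (Real.exp_pos _)]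
    exact exp_pot_le o hA a r x

lemma HH_eq (o : Fin d → Fin n) {A : Fin n → ℝ → ℝ} (hA : ∀ i, Adm (A i))
    {K : Set (Fin n → ℝ)} (hK : Bornology.IsBounded K) (a : ℝ) (r : Fin d → ℝ) :
    HH o A K a r = ENNReal.ofReal (∫ x in K, Real.exp (-pot o A a r x)) := by
  unfold HH
  rw [ofReal_integral_eq_lintegral_ofReal (integrableOn_pot o hA hK a r)]
  filter_upwards with x
  exact (Real.exp_pos _).le

lemma measurable_HH (o : Fin d → Fin n) {A : Fin n → ℝ → ℝ} (hA : ∀ i, Adm (A i))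
    (K : Set (Fin n → ℝ)) (a : ℝ) : Measurable (HH o A K a) := by
  unfold HH
  have h : Measurable (fun z : (Fin d → ℝ) × (Fin n → ℝ) =>
      ENNReal.ofReal (Real.exp (-pot o A a z.1 z.2))) :=
    (Real.continuous_exp.comp (continuous_pot o hA a).neg).measurable.ennreal_ofReal
  exact h.lintegral_prod_right'

/-- the density of the statement -/
noncomputable def mixf (o : Fin d → Fin n) (A : Fin n → ℝ → ℝ) (w : Fin d → ℝ → ℝ)
    (x : Fin n → ℝ) : ℝ :=
  (∏ i, Real.exp (-A i (x i ^ 2))) *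
      ∏ k, ∫ r, Real.exp (-(Real.exp r * x (o k) ^ 2 / 2)) * w k r

lemma mixf_eq (o : Fin d → Fin n) (A : Fin n → ℝ → ℝ) (w : Fin d → ℝ → ℝ) (a : ℝ)
    (x : Fin n → ℝ) :
    mixf o A w (a⁻¹ • x) = ∫ r : Fin d → ℝ, Real.exp (-pot o A a r x) * ∏ k, w k (r k) := by
  unfold mixf
  rw [← integral_fintype_prod_volume_eq_prod (𝕜 := ℝ)
    (fun k r => Real.exp (-(Real.exp r * (a⁻¹ • x) (o k) ^ 2 / 2)) * w k r),
    ← integral_const_mul]
  apply integral_congr_ae
  filter_upwards with r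
  rw [Finset.prod_mul_distrib, ← mul_assoc]
  congr 1
  rw [← Real.exp_sum, ← Real.exp_sum, ← Real.exp_add]
  congr 1
  unfold pot
  rw [Finset.sum_neg_distrib, Finset.sum_neg_distrib, neg_add, Finset.sum_div]
  simp only [Pi.smul_apply, smul_eq_mul, div_eq_inv_mul]

lemma integrable_prod_w {w : Fin d → ℝ → ℝ} (hw : ∀ k, Integrable (w k)) :
    Integrable (fun r : Fin d → ℝ => ∏ k, w k (r k)) :=
  Integrable.fintype_prod hw

lemma integrable_mix (o : Fin d → Fin n) {A : Fin n → ℝ → ℝ} (hA : ∀ i, Adm (A i))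
    {w : Fin d → ℝ → ℝ} (hw : ∀ k, Integrable (w k)) (a : ℝ) (x : Fin n → ℝ) :
    Integrable (fun r : Fin d → ℝ => Real.exp (-pot o A a r x) * ∏ k, w k (r k)) := by
  apply (integrable_prod_w hw).bdd_mul (c := Real.exp (-∑ i, A i 0))
  · have h := (continuous_pot o hA a).comp (Continuous.prodMk_left (Y := Fin n → ℝ) x)
    exact (Real.continuous_exp.comp h.neg).aestronglyMeasurable
  · filter_upwards with r
    rw [Real.norm_eq_abs, abs_of_pos (Real.exp_pos _)]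
    exact exp_pot_le o hA a r x

lemma lint_eq (o : Fin d → Fin n) {A : Fin n → ℝ → ℝ} (hA : ∀ i, Adm (A i))
    {w : Fin d → ℝ → ℝ} (hw : ∀ k, Integrable (w k)) (hw0 : ∀ k x, 0 ≤ w k x)
    (hwm : ∀ k, Measurable (w k)) (a : ℝ) (K : Set (Fin n → ℝ)) :
    ∫⁻ x in K, ENNReal.ofReal (mixf o A w (a⁻¹ • x)) =
      ∫⁻ r : Fin d → ℝ, ENNReal.ofReal (∏ k, w k (r k)) * HH o A K a r := by
  have hWm : Measurable (fun r : Fin d → ℝ => ∏ k, w k (r k)) :=
    Finset.measurable_fun_prod _ (fun k _ => (hwm k).comp (measurable_pi_apply k))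
  have hW0 : ∀ r : Fin d → ℝ, 0 ≤ ∏ k, w k (r k) := fun r =>
    Finset.prod_nonneg (fun k _ => hw0 k _)
  have h1 : ∀ x, ENNReal.ofReal (mixf o A w (a⁻¹ • x)) = ∫⁻ r : Fin d → ℝ,
      ENNReal.ofReal (∏ k, w k (r k)) * ENNReal.ofReal (Real.exp (-pot o A a r x)) := by
    intro x
    rw [mixf_eq, ofReal_integral_eq_lintegral_ofReal (integrable_mix o hA hw a x)]
    · apply lintegral_congr
      intro r
      rw [ENNReal.ofReal_mul (Real.exp_pos _).le, mul_comm]
    · filter_upwards with r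
      exact mul_nonneg (Real.exp_pos _).le (hW0 r)
  simp_rw [h1]
  rw [lintegral_lintegral_swap]
  · apply lintegral_congr
    intro r
    unfold HH
    rw [lintegral_const_mul' _ _ ENNReal.ofReal_ne_top]
  · apply Measurable.aemeasurable
    have h2 : Measurable (fun z : (Fin n → ℝ) × (Fin d → ℝ) =>
        ENNReal.ofReal (∏ k, w k (z.2 k))) := (hWm.comp measurable_snd).ennreal_ofReal
    have h3 : Measurable (fun z : (Fin n → ℝ) × (Fin d → ℝ) =>
        ENNReal.ofReal (Real.exp (-pot o A a z.2 z.1))) :=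
      (Real.continuous_exp.comp ((continuous_pot o hA a).comp
        (continuous_snd.prodMk continuous_fst)).neg).measurable.ennreal_ofReal
    exact h2.mul h3

lemma mixf_nonneg (o : Fin d → Fin n) (A : Fin n → ℝ → ℝ) {w : Fin d → ℝ → ℝ}
    (hw0 : ∀ k x, 0 ≤ w k x) (x : Fin n → ℝ) : 0 ≤ mixf o A w x := by
  unfold mixf
  apply mul_nonneg
  · exact Finset.prod_nonneg (fun i _ => (Real.exp_pos _).le)
  · exact Finset.prod_nonneg (fun k _ => integral_nonneg (fun r =>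
      mul_nonneg (Real.exp_pos _).le (hw0 k r)))

lemma mixf_le (o : Fin d → Fin n) {A : Fin n → ℝ → ℝ} (hA : ∀ i, Adm (A i))
    {w : Fin d → ℝ → ℝ} (hw : ∀ k, Integrable (w k)) (hw0 : ∀ k x, 0 ≤ w k x)
    (a : ℝ) (x : Fin n → ℝ) : mixf o A w (a⁻¹ • x) ≤
      Real.exp (-∑ i, A i 0) * ∫ r : Fin d → ℝ, ∏ k, w k (r k) := by
  rw [mixf_eq, ← integral_const_mul]
  apply integral_mono (integrable_mix o hA hw a x) ((integrable_prod_w hw).const_mul _)
  intro r
  exact mul_le_mul_of_nonneg_right (exp_pot_le o hA a r x)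
    (Finset.prod_nonneg (fun k _ => hw0 k _))

lemma measurable_mixf (o : Fin d → Fin n) {A : Fin n → ℝ → ℝ} (hA : ∀ i, Adm (A i))
    {w : Fin d → ℝ → ℝ} (hwm : ∀ k, Measurable (w k)) (a : ℝ) :
    Measurable (fun x => mixf o A w (a⁻¹ • x)) := by
  have h1 : (fun x => mixf o A w (a⁻¹ • x)) = fun x : Fin n → ℝ =>
      ∫ r : Fin d → ℝ, Real.exp (-pot o A a r x) * ∏ k, w k (r k) := by
    funext x
    exact mixf_eq o A w a x
  rw [h1]
  have hWm : Measurable (fun r : Fin d → ℝ => ∏ k, w k (r k)) :=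
    Finset.measurable_fun_prod _ (fun k _ => (hwm k).comp (measurable_pi_apply k))
  have h2 : Measurable (fun z : (Fin n → ℝ) × (Fin d → ℝ) =>
      Real.exp (-pot o A a z.2 z.1) * ∏ k, w k (z.2 k)) :=
    (Real.continuous_exp.comp ((continuous_pot o hA a).comp
        (continuous_snd.prodMk continuous_fst)).neg).measurable.mul (hWm.comp measurable_snd)
  exact (h2.stronglyMeasurable.integral_prod_right').measurable

lemma int_eq (o : Fin d → Fin n) {A : Fin n → ℝ → ℝ} (hA : ∀ i, Adm (A i))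
    {w : Fin d → ℝ → ℝ} (hw : ∀ k, Integrable (w k)) (hw0 : ∀ k x, 0 ≤ w k x)
    (hwm : ∀ k, Measurable (w k)) (a : ℝ) {K : Set (Fin n → ℝ)} (hK : Bornology.IsBounded K) :
    ∫⁻ r : Fin d → ℝ, ENNReal.ofReal (∏ k, w k (r k)) * HH o A K a r =
      ENNReal.ofReal (∫ x in K, mixf o A w (a⁻¹ • x)) := by
  rw [← lint_eq o hA hw hw0 hwm a K, ofReal_integral_eq_lintegral_ofReal]
  · apply Measure.integrableOn_of_bounded
      (M := Real.exp (-∑ i, A i 0) * ∫ r : Fin d → ℝ, ∏ k, w k (r k)) hK.measure_lt_top.ne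
    · exact (measurable_mixf o hA hwm a).aestronglyMeasurable
    · filter_upwards with x
      rw [Real.norm_eq_abs, abs_of_nonneg (mixf_nonneg o A hw0 _)]
      exact mixf_le o hA hw hw0 a x
  · filter_upwards with x
    exact mixf_nonneg o A hw0 _

lemma prod_lc {w : Fin d → ℝ → ℝ} (hw0 : ∀ k x, 0 ≤ w k x) (hlc : ∀ k, LC1 (w k)) {t : ℝ}
    (ht0 : 0 < t) (ht1 : t < 1) (x y : Fin d → ℝ) :
    (∏ k, w k (x k)) ^ (1 - t) * (∏ k, w k (y k)) ^ t ≤
      ∏ k, w k (((1 - t) • x + t • y) k) := by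
  rw [← Real.finsetProd_rpow _ _ (fun k _ => hw0 k _), ← Real.finsetProd_rpow _ _
    (fun k _ => hw0 k _), ← Finset.prod_mul_distrib]
  apply Finset.prod_le_prod
  · intro k _
    exact mul_nonneg (Real.rpow_nonneg (hw0 k _) _) (Real.rpow_nonneg (hw0 k _) _)
  · intro k _
    have h := hlc k (x k) (y k) (1 - t) (by linarith) (by linarith)
    have e : 1 - (1 - t) = t := by ring
    rw [e] at h
    simpa using h

/-- M10a -/
theorem mix (h : JLCr) : MixJLC := by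
  intro n d o A w hA hw0 hlc hwm hw K0 K1 a0 a1 t hK0 hK1 hn0 hn1 hs0 hs1 hb0 hb1 ha0 ha1 ht0 ht1
  have h1t : 0 < 1 - t := by linarith
  have hbt : Bornology.IsBounded ((1 - t) • K0 + t • K1) := (hb0.smul₀ _).add (hb1.smul₀ _)
  set at' := (1 - t) * a0 + t * a1 with hat
  have hPL := Pool.Agent.Lib.MP_2c1b2b_gt.H32.pl_pi (Fin d) t ht0 ht1
    (fun r => ENNReal.ofReal (∏ k, w k (r k)) * HH o A K0 a0 r)
    (fun r => ENNReal.ofReal (∏ k, w k (r k)) * HH o A K1 a1 r)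
    (fun r => ENNReal.ofReal (∏ k, w k (r k)) * HH o A ((1 - t) • K0 + t • K1) at' r)
  have hWm : Measurable (fun r : Fin d → ℝ => ENNReal.ofReal (∏ k, w k (r k))) :=
    (Finset.measurable_fun_prod _ (fun k _ => (hwm k).comp (measurable_pi_apply k))).ennreal_ofReal
  have hW0 : ∀ r : Fin d → ℝ, 0 ≤ ∏ k, w k (r k) := fun r =>
    Finset.prod_nonneg (fun k _ => hw0 k _)
  have hH0 : ∀ (K : Set (Fin n → ℝ)) (a : ℝ) (r : Fin d → ℝ),
      0 ≤ ∫ x in K, Real.exp (-pot o A a r x) := fun K a r =>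
    integral_nonneg (fun x => (Real.exp_pos _).le)
  have hkey := hPL (hWm.mul (measurable_HH o hA K0 a0)) (hWm.mul (measurable_HH o hA K1 a1))
    (hWm.mul (measurable_HH o hA _ at')) (by
      intro x y
      rw [HH_eq o hA hb0, HH_eq o hA hb1, HH_eq o hA hbt, ← ENNReal.ofReal_mul (hW0 _),
        ← ENNReal.ofReal_mul (hW0 _), ← ENNReal.ofReal_mul (hW0 _),
        ENNReal.ofReal_rpow_of_nonneg (mul_nonneg (hW0 _) (hH0 _ _ _)) h1t.le,
        ENNReal.ofReal_rpow_of_nonneg (mul_nonneg (hW0 _) (hH0 _ _ _)) ht0.le,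
        ← ENNReal.ofReal_mul (Real.rpow_nonneg (mul_nonneg (hW0 _) (hH0 _ _ _)) _)]
      apply ENNReal.ofReal_le_ofReal
      rw [Real.mul_rpow (hW0 _) (hH0 _ _ _), Real.mul_rpow (hW0 _) (hH0 _ _ _)]
      have e1 : (∏ k, w k (x k)) ^ (1 - t) * (∫ x_1 in K0, Real.exp (-pot o A a0 x x_1)) ^ (1 - t) *
          ((∏ k, w k (y k)) ^ t * (∫ x in K1, Real.exp (-pot o A a1 y x)) ^ t) =
          ((∏ k, w k (x k)) ^ (1 - t) * (∏ k, w k (y k)) ^ t) *
          ((∫ x_1 in K0, Real.exp (-pot o A a0 x x_1)) ^ (1 - t) *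
            (∫ x in K1, Real.exp (-pot o A a1 y x)) ^ t) := by ring
      rw [e1]
      apply mul_le_mul (prod_lc hw0 hlc ht0 ht1 x y)
      · exact h n d o A K0 K1 x y a0 a1 t hA hK0 hK1 hn0 hn1 hs0 hs1 hb0 hb1 ha0 ha1 ht0 ht1
      · exact mul_nonneg (Real.rpow_nonneg (hH0 _ _ _) _) (Real.rpow_nonneg (hH0 _ _ _) _)
      · exact hW0 _)
  rw [int_eq o hA hw hw0 hwm a0 hb0, int_eq o hA hw hw0 hwm a1 hb1,
    int_eq o hA hw hw0 hwm at' hbt] at hkey
  have hI0 : ∀ (K : Set (Fin n → ℝ)) (a : ℝ), 0 ≤ ∫ x in K, mixf o A w (a⁻¹ • x) := fun K a =>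
    integral_nonneg (fun x => mixf_nonneg o A hw0 _)
  rw [ENNReal.ofReal_rpow_of_nonneg (hI0 _ _) h1t.le, ENNReal.ofReal_rpow_of_nonneg (hI0 _ _) ht0.le,
    ← ENNReal.ofReal_mul (Real.rpow_nonneg (hI0 _ _) _),
    ENNReal.ofReal_le_ofReal_iff (hI0 _ _)] at hkey
  exact hkey

end Pool.Agent.Lib.MP_2d002d_gt.H50
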